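import Pool.Agent.H69.LQ.Lib
import Pool.Agent.H69.LNN.Targets

/-!
# The norm of the profile
-/

set_option autoImplicit false

open MeasureTheory Metric Set
open scoped ENNReal

namespace Pool.Agent.H49.LNN

open Pool.Agent.H85.LK (E adm lam Ann)
open Pool.Agent.H69.LQ Pool.Agent.H69.LNN

theorem pf_NB (hPH : T_PH) (hPV : T_PV) : T_NB := by
  intro N L hN hFz
  have hL := hFz.pos
  obtain ⟨hd, hc, ho⟩ := hPH N L (by omega)
  obtain ⟨hpos, hp1, -, -⟩ := hPV N L (by omega) hFz
  obtain ⟨n, rfl⟩ : ∃ n, N = n + 3 := ⟨N - 3, by omega⟩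
  have e2 : n + 3 - 1 = n + 2 := rfl
  have e3 : n + 3 - 3 = n := rfl
  unfold be NP
  rw [e3]
  set p := ph (n + 3) L 1 with hp
  set p' := dph (n + 3) L 1 with hp'
  have hcp : Continuous p := (hc 1).1.continuous
  have hcp' : Continuous p' := (hc 1).2.continuous
  have hdp : ∀ r, HasDerivAt p (p' r) r := hd 1
  -- the equation
  have hode : ∀ r, 0 < r → ∃ p2 : ℝ, HasDerivAt p' p2 r ∧
      r ^ 2 * p2 = ((n : ℝ) + 2 - L * r ^ 2) * p r - ((n : ℝ) + 2) * r * p' r := by
    intro r hr
    have hdif : DifferentiableAt ℝ p' r := ((hc 1).2.differentiable (by simp)) r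
    refine ⟨deriv p' r, hdif.hasDerivAt, ?_⟩
    have h1 := ho 1 r hr
    rw [e2] at h1
    have h2 : HasDerivAt (fun r => r ^ (n + 2) * p' r)
        (((n + 2 : ℕ) : ℝ) * r ^ (n + 2 - 1) * p' r + r ^ (n + 2) * deriv p' r) r :=
      (hasDerivAt_pow (n + 2) r).mul hdif.hasDerivAt
    have h3 := h2.unique h1
    have e4 : n + 2 - 1 = n + 1 := rfl
    rw [e4] at h3
    push_cast at h3
    have hr0 : r ≠ 0 := hr.ne'
    have h4 : r ^ n * (r ^ 2 * deriv p' r) =
        r ^ n * (((n : ℝ) + 2 - L * r ^ 2) * p r - ((n : ℝ) + 2) * r * p' r) := by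
      have h5 : r ^ (n + 2) * (1 * (1 + ((n : ℝ) + 3) - 2) / r ^ 2 - L) * ph (n + 3) L 1 r =
          r ^ n * ((n : ℝ) + 2 - L * r ^ 2) * p r := by
        rw [← hp]
        field_simp
        ring
      rw [← mul_assoc, h5] at h3
      linear_combination h3
    exact mul_left_cancel₀ (pow_ne_zero n hr0) h4
  -- integrability
  have hint : ∀ f : ℝ → ℝ, Continuous f → IntervalIntegrable f volume 0 1 :=
    fun f hf => hf.intervalIntegrable 0 1
  have hc1 : Continuous fun r : ℝ => r ^ (n + 2) * p r ^ 2 :=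
    (continuous_pow _).mul (hcp.pow 2)
  have hc2 : Continuous fun r : ℝ => r ^ n * p r ^ 2 := (continuous_pow _).mul (hcp.pow 2)
  have hc3 : Continuous fun r : ℝ => r ^ n * (r * p' r + (((n : ℝ) + 1) / 2) * p r) ^ 2 :=
    (continuous_pow _).mul
      (((continuous_id.mul hcp').add (continuous_const.mul hcp)).pow 2)
  set I := ∫ r in (0 : ℝ)..1, r ^ (n + 2) * p r ^ 2 with hI
  set P := ∫ r in (0 : ℝ)..1, r ^ n * p r ^ 2 with hP
  -- (A)
  have hA : 2 * L * I = p' 1 ^ 2 := by
    let F : ℝ → ℝ := fun r : ℝ => r ^ (n + 3) * p' r ^ 2 +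
      ((n : ℝ) + 1) * (r ^ (n + 2) * (p r * p' r)) -
      ((n : ℝ) + 2) * (r ^ (n + 1) * p r ^ 2) + L * (r ^ (n + 3) * p r ^ 2)
    have h1 : ∫ r in (0 : ℝ)..1, 2 * L * (r ^ (n + 2) * p r ^ 2) = F 1 - F 0 := by
      refine intervalIntegral.integral_eq_sub_of_hasDerivAt_of_le (f := F)
        (f' := fun r => 2 * L * (r ^ (n + 2) * p r ^ 2)) zero_le_one ?_ ?_ ?_
      · exact Continuous.continuousOn (((((continuous_pow _).mul (hcp'.pow 2)).add
          (continuous_const.mul ((continuous_pow _).mul (hcp.mul hcp')))).sub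
          (continuous_const.mul ((continuous_pow _).mul (hcp.pow 2)))).add
          (continuous_const.mul ((continuous_pow _).mul (hcp.pow 2))))
      · intro r hr
        obtain ⟨p2, h2, h3⟩ := hode r hr.1
        have k1 := (hasDerivAt_pow (n + 3) r).mul (h2.pow 2)
        have k2 := ((hasDerivAt_pow (n + 2) r).mul ((hdp r).mul h2)).const_mul ((n : ℝ) + 1)
        have k3 := ((hasDerivAt_pow (n + 1) r).mul ((hdp r).pow 2)).const_mul ((n : ℝ) + 2)
        have k4 := ((hasDerivAt_pow (n + 3) r).mul ((hdp r).pow 2)).const_mul L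
        have k5 := ((k1.add k2).sub k3).add k4
        refine k5.congr_deriv ?_
        have e4 : n + 2 - 1 = n + 1 := rfl
        have e5 : n + 1 - 1 = n := rfl
        rw [e2, e4, e5]
        simp only [Pi.pow_apply, Pi.mul_apply, Nat.reduceSub, pow_one]
        push_cast
        linear_combination (2 * r ^ (n + 1) * p' r + ((n : ℝ) + 1) * r ^ n * p r) * h3
      · exact hint _ (continuous_const.mul hc1)
    rw [intervalIntegral.integral_const_mul] at h1
    simp only [F, one_pow, hp1, one_mul, zero_mul, mul_zero, add_zero, sub_zero,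
      ne_eq, OfNat.ofNat_ne_zero, not_false_eq_true, zero_pow, Nat.add_eq_zero_iff, and_false,
      one_ne_zero] at h1
    exact h1
  -- (B)
  have hB : ((n : ℝ) + 3) ^ 2 / 4 * P ≤ L * I := by
    let F : ℝ → ℝ := fun r : ℝ => r ^ (n + 2) * (p r * p' r) +
      ((n : ℝ) + 1) / 2 * (r ^ (n + 1) * p r ^ 2)
    have h1 : ∫ r in (0 : ℝ)..1, (((n : ℝ) + 3) ^ 2 / 4 * (r ^ n * p r ^ 2) -
        L * (r ^ (n + 2) * p r ^ 2) + r ^ n * (r * p' r + (((n : ℝ) + 1) / 2) * p r) ^ 2) =
        F 1 - F 0 := by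
      refine intervalIntegral.integral_eq_sub_of_hasDerivAt_of_le (f := F)
        (f' := fun r => (((n : ℝ) + 3) ^ 2 / 4 * (r ^ n * p r ^ 2) -
        L * (r ^ (n + 2) * p r ^ 2) + r ^ n * (r * p' r + (((n : ℝ) + 1) / 2) * p r) ^ 2))
        zero_le_one ?_ ?_ ?_
      · exact Continuous.continuousOn (((continuous_pow _).mul (hcp.mul hcp')).add
          (continuous_const.mul ((continuous_pow _).mul (hcp.pow 2))))
      · intro r hr
        obtain ⟨p2, h2, h3⟩ := hode r hr.1
        have k2 := (hasDerivAt_pow (n + 2) r).mul ((hdp r).mul h2)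
        have k3 := ((hasDerivAt_pow (n + 1) r).mul ((hdp r).pow 2)).const_mul
          (((n : ℝ) + 1) / 2)
        refine (k2.add k3).congr_deriv ?_
        have e4 : n + 2 - 1 = n + 1 := rfl
        have e5 : n + 1 - 1 = n := rfl
        rw [e4, e5]
        simp only [Pi.pow_apply, Pi.mul_apply, Nat.reduceSub, pow_one]
        push_cast
        linear_combination (r ^ n * p r) * h3
      · exact hint _ (((continuous_const.mul hc2).sub (continuous_const.mul hc1)).add hc3)
    simp only [F, one_pow, hp1, one_mul, zero_mul, mul_zero, add_zero, sub_zero,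
      ne_eq, OfNat.ofNat_ne_zero, not_false_eq_true, zero_pow, Nat.add_eq_zero_iff, and_false,
      one_ne_zero] at h1
    have i1 : Continuous fun r : ℝ => ((n : ℝ) + 3) ^ 2 / 4 * (r ^ n * p r ^ 2) :=
      continuous_const.mul hc2
    have i2 : Continuous fun r : ℝ => L * (r ^ (n + 2) * p r ^ 2) := continuous_const.mul hc1
    have i3 : Continuous fun r : ℝ => ((n : ℝ) + 3) ^ 2 / 4 * (r ^ n * p r ^ 2) -
      L * (r ^ (n + 2) * p r ^ 2) := i1.sub i2
    rw [intervalIntegral.integral_add (hint _ i3) (hint _ hc3), intervalIntegral.integral_sub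
      (hint _ i1) (hint _ i2),
      intervalIntegral.integral_const_mul, intervalIntegral.integral_const_mul] at h1
    have h2 : 0 ≤ ∫ r in (0 : ℝ)..1, r ^ n * (r * p' r + (((n : ℝ) + 1) / 2) * p r) ^ 2 :=
      intervalIntegral.integral_nonneg zero_le_one fun r hr =>
        mul_nonneg (pow_nonneg hr.1 _) (sq_nonneg _)
    linarith
  -- positivity
  have hP0 : 0 < P := by
    refine intervalIntegral.intervalIntegral_pos_of_pos_on (hint _ hc2) ?_ zero_lt_one
    intro r hr
    have := hpos r hr.1 hr.2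
    exact mul_pos (pow_pos hr.1 _) (pow_pos this 2)
  have hIP : I ≤ P := by
    refine intervalIntegral.integral_mono_on zero_le_one (hint _ hc1) (hint _ hc2) ?_
    intro r hr
    refine mul_le_mul_of_nonneg_right ?_ (sq_nonneg _)
    rw [pow_add]
    have h1 : r ^ 2 ≤ 1 := by
      have := hr.1
      have := hr.2
      nlinarith
    have h2 : 0 ≤ r ^ n := pow_nonneg hr.1 n
    nlinarith
  have hN0 : (0 : ℝ) < ((n + 3 : ℕ) : ℝ) := by positivity
  have hD : 0 < ((n + 3 : ℕ) : ℝ) ^ 2 * P := by positivity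
  refine ⟨hP0, ?_, ?_⟩
  · rw [le_div_iff₀ hD, ← hA]
    push_cast
    linarith
  · rw [div_le_div_iff₀ hD (by positivity), ← hA]
    have h1 : L * I ≤ L * P := mul_le_mul_of_nonneg_left hIP hL.le
    have h2 : 0 ≤ ((n + 3 : ℕ) : ℝ) ^ 2 := by positivity
    nlinarith

end Pool.Agent.H49.LNN
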